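import Pool.Agent.N375.AV.D
import Pool.Agent.Results.MP_e43fce_nt.CarmichaelMultiples

/-!
# The total stopping time near functions of the values of additive functions and of their compositions

`l(n) ≤ n` cannot be proved for one large `n` without a bound for `l(m)` for smaller `m`. Let `0 < β ≤ 1` be as small as we
like, and call `n` falling if its trajectory goes below `n ^ β` within `2 (log₂ (2 n))²` steps. For a falling large `n` the
inequality `l(n) ≤ n` follows from the much weaker `l(m) ≤ K m ^ A` for the `m < n ^ β`, for any `A < 1 / β`.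

Let `F = f_1 ∘ ⋯ ∘ f_k` be a composition of functions dominated by the largest prime factor, for example of additive functions
`f` with `f(q^j) ≤ C q^j` which are injective at the large primes (the sum of the prime factors), of the largest prime factor
and of Kempner's function. For all `m ≤ N` but `K N exp (-δ (log N)^(1/(k+1)))`, EVERY `n ≥ 1` with `|n - α F(m)^d| ≤ F(m)^κ` is
falling, if `d ≥ 1`, `κ ≥ 0` and `d (1 - (1 - H) β) + κ < 1`, where `H = 0.9499...` is the binary entropy of `log 2 / log 3`.
More generally `G (F m)` takes the place of `α F(m)^d`, where `G` is any function with steps bounded below by a positive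
constant and growth at most `v^d`. The values of `F` are taken with very large multiplicities, and `F(m)` is in general of
smaller order of magnitude than `m`, and so this does not follow from the number `X ^ (1 - (1 - H) β + ε)` of the `n ≤ X` which
are not falling. (The sequences of windows of the starting result `CarmichaelMultiples` are different: multiples of
Carmichael's function of `m`, and denominators of good approximations.)

Proof. The preimage of a set with at most `K X exp (- c (log X)^β)` elements up to `X` under a function dominated by the largest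
prime factor has at most `K' X exp (- c' (log X)^(β / (1 + β)))` elements: write `m = u p`, `p` the largest prime factor, count
the primes `p` for fixed `u`, and use Rankin's bound for the smooth numbers. This is `good_nat` of the file
`Pool/Agent/N375/AV/D.lean` (helper375). The number of the exceptions is the starting theorem `saving` of
`Pool/Agent/N835/FT/Count.lean` (helper835).
-/

set_option autoImplicit false

namespace Pool.Agent.Results.MP_e43fce_nt.AdditiveValues

open Filter Topology
open Pool.Agent.N733.TG (Expanding expanding_pow)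
open Pool.Agent.N375.AV (PD comp good_nat pd_additive pd_largest pd_kempner)

/-- the Collatz function -/
def C (n : ℕ) : ℕ := if n % 2 = 0 then n / 2 else 3 * n + 1

/-- `l(n) ≤ t`: one of the iterates `C^(k)(n)` with `k ≤ t` is `1` -/
def StopsBy (t : ℝ) (n : ℕ) : Prop := ∃ k : ℕ, (k : ℝ) ≤ t ∧ C^[k] n = 1

/-- Within `2 (log₂ (2 n))²` steps the trajectory of `n` falls below `n ^ β`. -/
def Falls (β : ℝ) (n : ℕ) : Prop :=
  ∃ j : ℕ, (j : ℝ) ≤ 2 * Real.logb 2 (2 * n) ^ 2 ∧ ((C^[j] n : ℕ) : ℝ) < (n : ℝ) ^ β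

/-- the entropy `H = 0.9499...` -/
noncomputable def H : ℝ := Real.binEntropy (Real.log 2 / Real.log 3) / Real.log 2

/-- **Theorem.** (0) `0.049 < 1 - H`. (1) Let `0 < β ≤ 1`, let `F = comp fs` be a composition of functions dominated by the
largest prime factor (`PD`), let `G` have steps `≥ a > 0` and growth at most `v^d`, let `κ ≥ 0` and
`d (1 - (1 - H) β) + κ < 1`. There are `δ > 0` and `K` such that for all `m ≤ N` but `K N exp (-δ (log N)^(1/(k+1)))`, `k` the
number of the functions in `fs`, EVERY `n ≥ 1` with `|n - G(F m)| ≤ (F m)^κ` is falling: some iterate `C^(j)(n)` with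
`j ≤ 2 (log₂ (2 n))²` is less than `n ^ β`. (2) If `A β < 1`, then a large falling `n` with `l(n) > n` requires some
`m < n ^ β` with `l(m) > K m ^ A`. (3) Functions `f` which are additive (on coprime arguments), with `f(q^j) ≤ C q^j` and
injective at the large primes, are dominated by the largest prime factor; so are the largest prime factor and Kempner's
function. `a v^d` with `a > 0`, `d ≥ 1` is an example of `G`. -/
theorem result : 0.049 < 1 - H ∧
    (∀ β : ℝ, 0 < β → β ≤ 1 → ∀ fs : List (ℕ → ℕ), (∀ f ∈ fs, PD f) →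
      ∀ (G : ℕ → ℝ) (d : ℝ), Expanding G d → ∀ κ : ℝ, 0 ≤ κ → d * (1 - (1 - H) * β) + κ < 1 →
      ∃ δ K : ℝ, 0 < δ ∧ ∀ N : ℕ, 1 ≤ N →
        ({m : ℕ | 1 ≤ m ∧ m ≤ N ∧ ¬ ∀ n : ℕ, 1 ≤ n → |(n : ℝ) - G (comp fs m)| ≤ (comp fs m : ℝ) ^ κ →
          Falls β n}.ncard : ℝ) ≤ K * N * Real.exp (-(δ * Real.log N ^ ((1 : ℝ) / (fs.length + 1))))) ∧
    (∀ A β K : ℝ, 0 ≤ A → 0 ≤ K → A * β < 1 → ∃ N : ℕ, ∀ n : ℕ, N ≤ n → Falls β n → ¬ StopsBy n n →
      ∃ m : ℕ, 1 ≤ m ∧ (m : ℝ) < (n : ℝ) ^ β ∧ ¬ StopsBy (K * (m : ℝ) ^ A) m) ∧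
    ((∀ f : ℕ → ℕ, (∀ a b : ℕ, Nat.Coprime a b → f (a * b) = f a + f b) →
        (∃ C : ℕ, ∀ q j : ℕ, q.Prime → 1 ≤ j → f (q ^ j) ≤ C * q ^ j) →
        (∃ P : ℕ, ∀ p q : ℕ, p.Prime → q.Prime → P ≤ p → P ≤ q → f p = f q → p = q) → PD f) ∧
      PD (fun n => n.primeFactors.sup id) ∧ PD (fun n => sInf {k : ℕ | n ∣ k.factorial})) ∧
    ∀ a d : ℝ, 0 < a → 1 ≤ d → Expanding (fun v => a * (v : ℝ) ^ d) d := by
  have hb1 : H < 0.951 := Pool.Agent.H319R2.beta_lt
  refine ⟨by linarith, fun β h0 h1 fs hfs G d hG κ hκ h2 => ?_,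
    CarmichaelMultiples.result.2.2.1,
    ⟨fun f h1 h2 h3 => pd_additive h1 h2 h3, pd_largest, pd_kempner⟩,
    fun a d ha hd => expanding_pow ha hd⟩
  have hb0 : 0 ≤ H := Pool.Agent.N835.FT.beta_nonneg
  obtain ⟨δ, K, hδ, hK⟩ := good_nat (fun _ => True) (Falls β) fs hfs hG (s := 1 - (1 - H) * β) (κ := κ)
    (by nlinarith) hκ h2 (fun ε hε => by
      obtain ⟨K, hK⟩ := Pool.Agent.N835.FT.saving h0 h1 ε hε
      refine ⟨K, fun X hX => le_trans (le_of_eq ?_) (hK X hX)⟩
      congr 2
      ext t
      exact ⟨fun h => ⟨h.1, h.2.1, h.2.2.2⟩, fun h => ⟨h.1, h.2.1, trivial, h.2.2⟩⟩)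
  refine ⟨δ, K, hδ, fun N hN => le_trans (le_of_eq ?_) (hK N hN)⟩
  congr 2
  ext m
  simp only [Set.mem_ofPred_eq, true_implies]

end Pool.Agent.Results.MP_e43fce_nt.AdditiveValues
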