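import Pool.Agent.V8H28.LM.E

set_option autoImplicit false

/-! The total stopping time of the Collatz function is asymptotically independent of every sequence
with local means. -/

namespace Pool.Agent.Results.MP_e43fce_nt.LocalMeans

open Filter Topology

/-- the Collatz function -/
def C (n : ℕ) : ℕ := if n % 2 = 0 then n / 2 else 3 * n + 1

/-- the total stopping time `l(n)`, the least `k ≥ 0` with `C^k(n) = 1`, and `⊤ = ∞` if there is none -/
noncomputable def l (n : ℕ) : ℕ∞ := sInf {k : ℕ∞ | ∃ j : ℕ, C^[j] n = 1 ∧ k = j}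

/-- `n` is an exception to the inequality `l(n) ≤ n`. -/
def Exceptional (n : ℕ) : Prop := (n : ℕ∞) < l n

/-- the positive integers with the property `P` have the natural density `δ` -/
def HasDensity (P : ℕ → Prop) (δ : ℝ) : Prop :=
  Tendsto (fun N : ℕ => ({n : ℕ | 1 ≤ n ∧ n ≤ N ∧ P n}.ncard : ℝ) / N) atTop (𝓝 δ)

/-- the number of the odd terms among the first `k` terms `n, C(n), ..., C^(k-1)(n)` -/
def odds : ℕ → ℕ → ℕ
  | 0, _ => 0
  | k + 1, n => n % 2 + odds k (C n)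

/-- The trajectories of `m` and `n` meet at one and the same time `k`, after the same number of odd terms,
and neither of them has reached `1` before. -/
def Merge (m n : ℕ) : Prop :=
  ∃ k, C^[k] m = C^[k] n ∧ odds k m = odds k n ∧ ∀ i < k, C^[i] m ≠ 1 ∧ C^[i] n ≠ 1

/-- the functions bounded by `1` which take the same value at merging positive integers; for instance all
functions, bounded by `1`, of `l(n)` and of the number of the odd terms before `1`, and the indicator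
functions of the sets of all `n` whose trajectories diverge, or are eventually periodic with a given period -/
def TailFunction (G : ℕ → ℂ) : Prop :=
  (∀ n, ‖G n‖ ≤ 1) ∧ ∀ m n, 1 ≤ m → 1 ≤ n → Merge m n → G m = G n

/-- the mean of `f` over the interval `(n, n + H]` -/
noncomputable def mean (f : ℕ → ℂ) (H n : ℕ) : ℂ := (∑ j ∈ Finset.Icc 1 H, f (n + j)) / H

/-- `f` has the local mean `c`: for every `ε > 0` there is a length `H` such that
`|mean f H n - c|` is at most `ε` in the mean over the `n ≤ N`, for all large `N`. -/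
def LocalMean (f : ℕ → ℂ) (c : ℂ) : Prop :=
  ∀ ε : ℝ, 0 < ε → ∃ H : ℕ, 1 ≤ H ∧ ∀ᶠ N : ℕ in atTop, ∑ n ∈ Finset.Icc 1 N, ‖mean f H n - c‖ ≤ ε * N

/-- the sequences with local means: a vector space, closed under limits in mean, which contains the
periodic sequences, the polynomial phases, the sequences which are completely multiplicative in the digits
in some base (with values of modulus at most `1`, not all equal to `1` on the digits), and the indicator
functions of the integers without a divisor in a given set with a convergent sum of reciprocals -/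
def Classes : Prop :=
  (∀ (f g : ℕ → ℂ) (b c : ℂ), LocalMean f b → LocalMean g c → LocalMean (fun n => f n + g n) (b + c)) ∧
  (∀ (a : ℂ) (f : ℕ → ℂ) (c : ℂ), LocalMean f c → LocalMean (fun n => a * f n) (a * c)) ∧
  (∀ f : ℕ → ℂ, (∀ ε : ℝ, 0 < ε → ∃ (g : ℕ → ℂ) (b : ℂ), LocalMean g b ∧
    ∀ᶠ N : ℕ in atTop, ∑ n ∈ Finset.Icc 1 N, ‖f n - g n‖ ≤ ε * N) → ∃ c, LocalMean f c) ∧
  (∀ (f : ℕ → ℂ) (q : ℕ), 1 ≤ q → (∀ n, f (n + q) = f n) → LocalMean f (mean f q 0)) ∧
  (∀ (P : Polynomial ℝ) (i : ℕ), 1 ≤ i → Irrational (P.coeff i) →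
    LocalMean (fun n => Complex.exp (2 * Real.pi * (P.eval (n : ℝ) : ℝ) * Complex.I)) 0) ∧
  (∀ (f : ℕ → ℂ) (b : ℕ), 2 ≤ b → (∀ n, ‖f n‖ ≤ 1) → (∀ n a, a < b → f (b * n + a) = f n * f a) →
    ‖∑ a ∈ Finset.range b, f a‖ < b → LocalMean f 0) ∧
  (∀ 𝓑 : Set ℕ, (∀ b ∈ 𝓑, 1 ≤ b) → (Summable fun b : 𝓑 => 1 / ((b : ℕ) : ℝ)) →
    ∃ c, LocalMean ({n : ℕ | ∀ b ∈ 𝓑, ¬ b ∣ n}.indicator fun _ => 1) c)

open Pool.Agent.V8H28.LM in
theorem l_merge {m n : ℕ} (h : Merge m n) : l m = l n ∧ ∀ k : ℕ, l n = k → odds k m = odds k n := by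
  have hM : Pool.Agent.V8H28.LM.Merge m n := by
    obtain ⟨k, h1, h2, h3⟩ := h
    have ho : ∀ k n, odds k n = Pool.Agent.V8H28.LM.odds k n := by
      intro k
      induction k with
      | zero => intro n; rfl
      | succ k ih => intro n; simp only [odds, Pool.Agent.V8H28.LM.odds]; rw [ih]; rfl
    exact ⟨k, h1, by rw [← ho, ← ho]; exact h2, h3⟩
  have ho : ∀ k n, odds k n = Pool.Agent.V8H28.LM.odds k n := by
    intro k
    induction k with
    | zero => intro n; rfl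
    | succ k ih => intro n; simp only [odds, Pool.Agent.V8H28.LM.odds]; rw [ih]; rfl
  have hset : {k : ℕ∞ | ∃ j : ℕ, C^[j] m = 1 ∧ k = j} = {k : ℕ∞ | ∃ j : ℕ, C^[j] n = 1 ∧ k = j} := by
    ext k
    constructor
    · rintro ⟨j, hj, rfl⟩
      exact ⟨j, (hM.symm.hit hj).1, rfl⟩
    · rintro ⟨j, hj, rfl⟩
      exact ⟨j, (hM.hit hj).1, rfl⟩
  refine ⟨by unfold l; rw [hset], fun k hk => ?_⟩
  have hne : {k : ℕ∞ | ∃ j : ℕ, C^[j] n = 1 ∧ k = j}.Nonempty := by
    by_contra hcon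
    rw [Set.not_nonempty_iff_eq_empty] at hcon
    unfold l at hk
    rw [hcon, sInf_empty] at hk
    exact absurd hk (by simp)
  have h1 := csInf_mem hne
  obtain ⟨j, hj, hjk⟩ := h1
  have : (k : ℕ∞) = j := by
    unfold l at hk
    rw [← hk, hjk]
  have hkj : k = j := by exact_mod_cast this
  rw [ho, ho, hkj]
  exact (hM.hit hj).2

theorem merge_iff {m n : ℕ} : Merge m n ↔ Pool.Agent.V8H28.LM.Merge m n := by
  have ho : ∀ k n, odds k n = Pool.Agent.V8H28.LM.odds k n := by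
    intro k
    induction k with
    | zero => intro n; rfl
    | succ k ih => intro n; simp only [odds, Pool.Agent.V8H28.LM.odds]; rw [ih]; rfl
  constructor
  · rintro ⟨k, h1, h2, h3⟩
    exact ⟨k, h1, by rw [← ho, ← ho]; exact h2, h3⟩
  · rintro ⟨k, h1, h2, h3⟩
    exact ⟨k, h1, by rw [ho, ho]; exact h2, h3⟩

theorem tail_iff {G : ℕ → ℂ} (h : TailFunction G) : Pool.Agent.V8H28.LM.Tail G :=
  ⟨h.1, fun m n hm hn hM => h.2 m n hm hn (merge_iff.2 hM)⟩

theorem exc_iff (n : ℕ) : Exceptional n ↔ Pool.Agent.V8H28.LM.Ex n := by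
  unfold Exceptional Pool.Agent.V8H28.LM.Ex
  rw [← not_iff_not, not_not, not_lt]
  constructor
  · intro h
    by_contra hcon
    push Not at hcon
    have h2 : ((n + 1 : ℕ) : ℕ∞) ≤ l n := by
      refine le_sInf ?_
      rintro k ⟨j, hj, rfl⟩
      have : n + 1 ≤ j := by
        by_contra hlt
        exact hcon j (by omega) hj
      exact_mod_cast this
    have h3 := h2.trans h
    have h4 : n + 1 ≤ n := by exact_mod_cast h3
    omega
  · rintro ⟨k, hk, h⟩
    have h1 : l n ≤ (k : ℕ∞) := sInf_le ⟨k, h, rfl⟩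
    exact h1.trans (by exact_mod_cast hk)

theorem top_iff (n : ℕ) : l n ≠ ⊤ ↔ ¬ Pool.Agent.V8H28.LM.Dv n := by
  unfold Pool.Agent.V8H28.LM.Dv
  rw [not_not]
  constructor
  · intro h
    by_contra hcon
    push Not at hcon
    apply h
    have : {k : ℕ∞ | ∃ j : ℕ, C^[j] n = 1 ∧ k = j} = ∅ := by
      rw [Set.eq_empty_iff_forall_notMem]
      rintro k ⟨j, hj, _⟩
      exact hcon j hj
    unfold l
    rw [this, sInf_empty]
  · rintro ⟨k, h⟩ htop
    have h1 : l n ≤ (k : ℕ∞) := sInf_le ⟨k, h, rfl⟩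
    rw [htop] at h1
    exact absurd h1 (by simp)

theorem ind_eq (E : Set ℕ) : (E.indicator fun _ => (1 : ℂ)) = Pool.Agent.V8H28.LM.ind (fun n => n ∈ E) := by
  classical
  funext n
  unfold Pool.Agent.V8H28.LM.ind
  by_cases h : n ∈ E
  · rw [Set.indicator_of_mem h, if_pos h]
  · rw [Set.indicator_of_notMem h, if_neg h]

theorem classes : Classes := by
  classical
  refine ⟨fun f g b c hf hg => Pool.Agent.V8H28.LM.LocalMean.add hf hg,
    fun a f c hf => Pool.Agent.V8H28.LM.LocalMean.smul a hf,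
    fun f h => Pool.Agent.V8H28.LM.exists_mean h,
    fun f q hq hp => (Pool.Agent.V8H28.LM.periodic_uniform hq hp).localMean,
    fun P i hi hirr => (Pool.Agent.V8H28.LM.poly_uniform P i hi hirr).localMean,
    fun f b hb h1 hf hs => (Pool.Agent.V8H28.LM.digit_uniform hb h1 hf hs).localMean,
    fun 𝓑 h1 hs => ?_⟩
  obtain ⟨c, hc⟩ := Pool.Agent.V8H28.LM.free_mean 𝓑 h1 hs
  refine ⟨c, ?_⟩
  have e : ({n : ℕ | ∀ b ∈ 𝓑, ¬ b ∣ n}.indicator fun _ => (1 : ℂ)) =
      fun n => if ∀ b ∈ 𝓑, ¬ b ∣ n then 1 else 0 := by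
    funext n
    rw [Set.indicator_apply]
    rfl
  rw [e]
  exact hc

/-- THE TOTAL STOPPING TIME AND SEQUENCES WITH LOCAL MEANS.
(0) Merging integers have the same total stopping time and the same number of odd terms before `1`.
(1) For all `f` bounded by `1`, all lengths `H` and all functions `G` of the tail of the trajectory, the sum
of `f(n) G(n)` over `n ≤ N` is the sum of `mean f H n · G(n)`, with an error of at most
`A √((1 + log (1 + H)) log log N / log N) N + 2 H`, and (2) of at most `ε N` for all `H ≤ N ^ θ`.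
(3) If `f` has the local mean `c` then the sum of `f G` is `c` times the sum of `G`, up to `o(N)`, uniformly
in the functions `G` of the tail.
(4) The exceptions `l(n) > n` have a natural density `δ`, `δ = 0` iff `l(n)` is always finite, and the
exceptions in a set `E` with the local mean `c` have the density `c δ`.
(5) Let `E` be a set such that for every `ε` there is `H` such that for all but `ε N` of the `n ≤ N` an
element of `E` is in `(n, n + H]`. If for arbitrarily large `N` the inequality `l(n) ≤ n` holds for all but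
`o(N)` of the `n ≤ N` in `E`, then `l(n)` is finite for ALL `n ≥ 1`.
(6) The classes of sequences with local means. -/
theorem result :
    (∀ m n : ℕ, Merge m n → l m = l n ∧ ∀ k : ℕ, l n = k → odds k m = odds k n) ∧
    (∃ A : ℝ, 0 < A ∧ ∀ N : ℕ, 16 ≤ N → ∀ H : ℕ, 1 ≤ H → ∀ f G : ℕ → ℂ, (∀ n, ‖f n‖ ≤ 1) →
      TailFunction G →
      ‖∑ n ∈ Finset.Icc 1 N, f n * G n - ∑ n ∈ Finset.Icc 1 N, mean f H n * G n‖ ≤
        A * √ ((1 + Real.log (1 + H)) * (Real.log (Real.log N) / Real.log N)) * N + 2 * H) ∧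
    (∀ ε : ℝ, 0 < ε → ∃ θ : ℝ, 0 < θ ∧ ∃ N₀ : ℕ, ∀ N ≥ N₀, ∀ H : ℕ, 1 ≤ H → (H : ℝ) ≤ (N : ℝ) ^ θ →
      ∀ f G : ℕ → ℂ, (∀ n, ‖f n‖ ≤ 1) → TailFunction G →
      ‖∑ n ∈ Finset.Icc 1 N, f n * G n - ∑ n ∈ Finset.Icc 1 N, mean f H n * G n‖ ≤ ε * N) ∧
    (∀ (f : ℕ → ℂ) (c : ℂ), (∀ n, ‖f n‖ ≤ 1) → LocalMean f c → ∀ ε : ℝ, 0 < ε → ∀ᶠ N : ℕ in atTop,
      ∀ G : ℕ → ℂ, TailFunction G →
      ‖∑ n ∈ Finset.Icc 1 N, f n * G n - c * ∑ n ∈ Finset.Icc 1 N, G n‖ ≤ ε * N) ∧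
    (∃ δ : ℝ, 0 ≤ δ ∧ δ < 1 ∧ (δ = 0 ↔ ∀ n : ℕ, 1 ≤ n → l n ≠ ⊤) ∧ HasDensity Exceptional δ ∧
      ∀ (E : Set ℕ) (c : ℝ), LocalMean (E.indicator fun _ => 1) c →
        HasDensity (fun n => n ∈ E ∧ Exceptional n) (c * δ)) ∧
    (∀ E : Set ℕ, (∀ ε : ℝ, 0 < ε → ∃ H : ℕ, ∀ᶠ N : ℕ in atTop,
        ({n : ℕ | 1 ≤ n ∧ n ≤ N ∧ ∀ j ∈ Finset.Icc 1 H, n + j ∉ E}.ncard : ℝ) ≤ ε * N) →
      (∀ ε : ℝ, 0 < ε → ∃ᶠ N : ℕ in atTop,
        ({n : ℕ | 1 ≤ n ∧ n ≤ N ∧ (n ∈ E ∧ Exceptional n)}.ncard : ℝ) ≤ ε * N) →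
      ∀ n : ℕ, 1 ≤ n → l n ≠ ⊤) ∧
    Classes := by
  refine ⟨fun m n h => l_merge h, ?_, ?_, ?_, ?_, ?_, classes⟩
  · obtain ⟨A, hA, h⟩ := Pool.Agent.V8H28.LM.t1
    exact ⟨A, hA, fun N hN H hH f G hf hG => h N hN H hH f G hf (tail_iff hG)⟩
  · intro ε hε
    obtain ⟨θ, hθ, N0, h⟩ := Pool.Agent.V8H28.LM.t2 hε
    exact ⟨θ, hθ, N0, fun N hN H hH hHN f G hf hG => h N hN H hH hHN f G hf (tail_iff hG)⟩
  · intro f c hf h ε hε
    filter_upwards [Pool.Agent.V8H28.LM.t3 hf h hε] with N hN G hG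
    exact hN G (tail_iff hG)
  · obtain ⟨δ, h0, h1, h2, h3, h4, h5⟩ := Pool.Agent.V8H28.LM.dens
    refine ⟨δ, h0, h1, ?_, ?_, fun E c hE => ?_⟩
    · rw [h2]
      exact forall₂_congr fun n _ => (top_iff n).symm
    · refine Pool.Agent.H499R2.CO.HD_congr h5 h3 fun n _ _ => (exc_iff n).symm
    · have hE' : Pool.Agent.V8H28.LM.LocalMean (Pool.Agent.V8H28.LM.ind fun n => n ∈ E) c := by
        rw [← ind_eq]
        exact hE
      have h6 := Pool.Agent.V8H28.LM.relative hE' h4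
      refine Pool.Agent.H499R2.CO.HD_congr h5 h6 fun n _ hn => ?_
      rw [exc_iff]
      constructor
      · rintro ⟨a1, a2⟩
        exact ⟨a1, fun ⟨k, _, hk⟩ => a2 ⟨k, hk⟩⟩
      · rintro ⟨a1, a2⟩
        refine ⟨a1, ?_⟩
        by_contra hcon
        exact hn ⟨a2, hcon⟩
  · intro E hE hD
    obtain ⟨δ, h0, h1, h2, h3, h4, h5⟩ := Pool.Agent.V8H28.LM.dens
    have hδ : δ = 0 := by
      refine Pool.Agent.V8H28.LM.sufficient (E := fun n => n ∈ E) hE (fun ε hε => ?_) h0 h4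
      refine (hD ε hε).mono fun N hN => le_trans ?_ hN
      have hsub : {n : ℕ | 1 ≤ n ∧ n ≤ N ∧ (n ∈ E ∧ Pool.Agent.V8H28.LM.Dv n)} ⊆
          {n : ℕ | 1 ≤ n ∧ n ≤ N ∧ (n ∈ E ∧ Exceptional n)} := by
        rintro n ⟨b1, b2, b3, b4⟩
        exact ⟨b1, b2, b3, (exc_iff n).2 fun ⟨k, _, hk⟩ => b4 ⟨k, hk⟩⟩
      exact_mod_cast Set.ncard_le_ncard hsub (Pool.Agent.V8H28.LM.fin_le _ N)
    intro n hn
    rw [top_iff]
    exact h2.1 hδ n hn

end Pool.Agent.Results.MP_e43fce_nt.LocalMeans
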