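import Pool.Agent.R482.ST.Star
import Pool.Agent.Results.MP_e43fce_nt.CarmichaelMultiples

/-!
# The total stopping time near powers, orbits and other sequences of almost all real numbers

`l(n) ≤ n` cannot be proved for one large `n` without a bound for `l(m)` for smaller `m`. Let `0 < β ≤ 1` be as small as we
like, and call `n` falling if its trajectory goes below `n ^ β` within `2 (log₂ (2 n))²` steps. For a falling large `n` the
inequality `l(n) ≤ n` follows from the much weaker `l(m) ≤ K m ^ A` for the `m < n ^ β`, for any `A < 1 / β`.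

Let `f_k`, `k = 0, 1, 2, …`, be positive functions on `(a₀, ∞)`, `a₀ ≥ 0`, such that `f_k(t) / t` is nondecreasing, and such
that the sequence `f_k(t)` has exponent of convergence at most `τ` for each `t > a₀`: for instance `f_k(t) = v_k t`
(dilatations; `τ` the exponent of convergence of `v_k > 0`), `f_k(t) = t ^ (v_k)` for exponents `v_k ≥ 1` (`τ = 0`), or the
orbits `f_k(t) = g (g (⋯ g (t)))` of any map `g` with `g(t) > t` and `g(t) / t` nondecreasing (`τ = 0`). Let `θ < 1`. For all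
`α > a₀` outside a set of Hausdorff dimension at most `(1 - (1 - H) β + τ) / (1 - θ)`, where `H = 0.9499...` is the binary
entropy of `log 2 / log 3`, and for each `c`, for all but finitely many `k`, EVERY `n` with `|n - f_k(α)| ≤ c f_k(α) ^ θ` is
falling. For `τ + θ < (1 - H) β` this holds for almost all `α`; for instance, for almost all `α > 1`, for all large `k`, for
all `n` with `|n - α ^ k| ≤ α ^ (θ k)`, if `θ < (1 - H) β`.
-/

set_option autoImplicit false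

namespace Pool.Agent.Results.MP_e43fce_nt.StarshapedSequences

/-- the functions `f n` are positive on `(a, ∞)`, `a ≥ 0`, and `f n x / x` is nondecreasing there -/
def Starshaped (a : ℝ) (f : ℕ → ℝ → ℝ) : Prop :=
  0 ≤ a ∧ ∀ n : ℕ, ∀ x y : ℝ, a < x → x ≤ y → 0 < f n x ∧ f n x / x ≤ f n y / y

/-- for each `x > a` the exponent of convergence of the sequence `f n x` is at most `τ` -/
def ExpLe (a : ℝ) (f : ℕ → ℝ → ℝ) (τ : ℝ) : Prop :=
  ∀ x : ℝ, a < x → ∀ t : ℝ, τ < t → Summable (fun n : ℕ => (f n x) ^ (-t))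

/-- the Collatz function -/
def C (n : ℕ) : ℕ := if n % 2 = 0 then n / 2 else 3 * n + 1

/-- `l(n) ≤ t`: one of the iterates `C^(k)(n)` with `k ≤ t` is `1` -/
def StopsBy (t : ℝ) (n : ℕ) : Prop := ∃ k : ℕ, (k : ℝ) ≤ t ∧ C^[k] n = 1

/-- Within `2 (log₂ (2 n))²` steps the trajectory of `n` falls below `n ^ β`. -/
def Falls (β : ℝ) (n : ℕ) : Prop :=
  ∃ j : ℕ, (j : ℝ) ≤ 2 * Real.logb 2 (2 * n) ^ 2 ∧ ((C^[j] n : ℕ) : ℝ) < (n : ℝ) ^ β

/-- the entropy `H = 0.9499...` -/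
noncomputable def H : ℝ := Real.binEntropy (Real.log 2 / Real.log 3) / Real.log 2

open Classical in
/-- **Theorem.** (0) `0.049 < 1 - H`. (1) Let `0 < β ≤ 1`, let `f` be starshaped functions on `(a, ∞)` of exponent of
convergence at most `τ ≥ 0`, and let `θ < 1`. There is a set `E` of Hausdorff dimension at most
`(1 - (1 - H) β + τ) / (1 - θ)` such that for each `α > a` outside `E`, each `c` and all but finitely many `k`, EVERY `n` with
`|n - f_k(α)| ≤ c f_k(α) ^ θ` is positive and falling: some iterate `C^(j)(n)` with `j ≤ 2 (log₂ (2 n))²` is less than `n ^ β`.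
(2) If `A β < 1`, then a large falling `n` with `l(n) > n` requires some `m < n ^ β` with `l(m) > K m ^ A`. (3) The functions
`v_n x`, `v_n > 0`, are starshaped on `(0, ∞)`, of exponent `τ` if `v` has exponent of convergence at most `τ`; the functions
`x ^ (v_n)`, `v_n ≥ 1`, are starshaped on `(1, ∞)`, of exponent `0` if the sums of `exp (-t v_n)` converge for `t > 0`; and the
iterates of a map `g` with `g(x) > x` for `x > a` and `g(x) / x` nondecreasing are starshaped on `(a, ∞)`, of exponent `0`. -/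
theorem result : 0.049 < 1 - H ∧
    (∀ β : ℝ, 0 < β → β ≤ 1 → ∀ (f : ℕ → ℝ → ℝ) (a τ θ : ℝ), Starshaped a f → 0 ≤ τ → ExpLe a f τ → θ < 1 →
      ∃ E : Set ℝ, dimH E ≤ ENNReal.ofReal ((1 - (1 - H) * β + τ) / (1 - θ)) ∧
        ∀ α : ℝ, a < α → α ∉ E → ∀ c : ℝ, ∃ k₀ : ℕ, ∀ k : ℕ, k₀ ≤ k → ∀ n : ℕ,
          |(n : ℝ) - f k α| ≤ c * (f k α) ^ θ → 0 < n ∧ Falls β n) ∧
    (∀ A β K : ℝ, 0 ≤ A → 0 ≤ K → A * β < 1 → ∃ N : ℕ, ∀ n : ℕ, N ≤ n → Falls β n → ¬ StopsBy n n →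
      ∃ m : ℕ, 1 ≤ m ∧ (m : ℝ) < (n : ℝ) ^ β ∧ ¬ StopsBy (K * (m : ℝ) ^ A) m) ∧
    (∀ (v : ℕ → ℝ) (τ : ℝ), (∀ n, 0 < v n) → (∀ t : ℝ, τ < t → Summable (fun n : ℕ => (v n) ^ (-t))) →
      Starshaped 0 (fun n x => v n * x) ∧ ExpLe 0 (fun n x => v n * x) τ) ∧
    (∀ v : ℕ → ℝ, (∀ n, 1 ≤ v n) → (∀ t : ℝ, 0 < t → Summable fun n : ℕ => Real.exp (-(t * v n))) →
      Starshaped 1 (fun n x => x ^ (v n)) ∧ ExpLe 1 (fun n x => x ^ (v n)) 0) ∧
    (∀ (a : ℝ) (g : ℝ → ℝ), 0 ≤ a → (∀ x y : ℝ, a < x → x ≤ y → g x / x ≤ g y / y) → (∀ x : ℝ, a < x → x < g x) →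
      Starshaped a (fun n x => g^[n] x) ∧ ExpLe a (fun n x => g^[n] x) 0) := by
  have hb1 : H < 0.951 := Pool.Agent.H319R2.beta_lt
  have hb0 : 0 ≤ H := Pool.Agent.N835.FT.beta_nonneg
  refine ⟨by linarith, fun β h0 h1 f a τ θ hf hτ hE hθ => ?_, CarmichaelMultiples.result.2.2.1,
    Pool.Agent.R482.ST.ex_mul, Pool.Agent.R482.ST.ex_pow, Pool.Agent.R482.ST.ex_orbit⟩
  have hs : 0 ≤ 1 - (1 - H) * β := by nlinarith
  obtain ⟨E, hE1, hE2⟩ := Pool.Agent.R482.ST.win_nat {n : ℕ | ¬ Falls β n} hf hτ hE hs hθ (fun ε hε => by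
    obtain ⟨K, hK⟩ := Pool.Agent.N835.FT.saving h0 h1 ε hε
    refine ⟨K, fun X hX => le_trans (le_of_eq ?_) (hK X hX)⟩
    congr 1
    rw [← Set.ncard_coe_finset]
    congr 1
    ext t
    simp only [Finset.coe_filter, Finset.mem_Ioc, Set.mem_ofPred_eq]
    exact ⟨fun h => ⟨h.1.1, h.1.2, h.2⟩, fun h => ⟨⟨h.1, h.2.1⟩, h.2.2⟩⟩)
  refine ⟨E, hE1, fun α hα hαE c => ?_⟩
  obtain ⟨k₀, hk⟩ := hE2 α hα hαE c
  refine ⟨k₀, fun k hk1 n hn => ?_⟩
  obtain ⟨h3, h4⟩ := hk k hk1 n hn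
  exact ⟨h3, not_not.1 h4⟩

end Pool.Agent.Results.MP_e43fce_nt.StarshapedSequences
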