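import Pool.Agent.N760.IT.C
import Pool.Agent.Results.MP_e43fce_nt.CarmichaelMultiples

/-!
# The total stopping time near the members of almost all orbits of Euler's function, and near the values of multiplicative
functions

`l(n) ≤ n` cannot be proved for one large `n` without a bound for `l(m)` for smaller `m`. Let `0 < β ≤ 1` be as small as we
like, and call `n` falling if its trajectory goes below `n ^ β` within `2 (log₂ (2 n))²` steps. For a falling large `n` the
inequality `l(n) ≤ n` follows from the much weaker `l(m) ≤ K m ^ A` for the `m < n ^ β`, for any `A < 1 / β`.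

Let `φ_k` be the `k`-th iterate of Euler's function, `φ_0(m) = m`. Let `f` be a positive multiplicative function of at most
polynomial growth such that `f p ≤ M p` for the large primes `p`, with different values at different large primes; for example
the identity, Euler's function or the sum of the divisors. Let `d ≥ 1`, `κ ≥ 0` and `d (1 - (1 - H) β) + κ < 1`, where
`H = 0.9499...` is the binary entropy of `log 2 / log 3`. There is `K(m)` tending to infinity such that for almost all `m`, for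
all `k ≤ K(m)`, with `v = f(φ_k(m))`, EVERY `n ≥ 1` with `|n - α v^d| ≤ v^κ` is falling; and for `v = f(m)` this holds for all
`m ≤ N` but `N / (log N)^U`, for every `U`. More generally `G v` takes the place of `α v^d`, where `G` is any function with
steps bounded below by a positive constant and growth at most `v^d`. The iterates of Euler's function are not multiplicative,
their values form a thin set and are taken with very large multiplicities, and so this does not follow from the number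
`X ^ (1 - (1 - H) β + ε)` of the `n ≤ X` which are not falling. (For `f = φ`, `k = 0` it is contained in the starting result
`CarmichaelMultiples` of this problem.)

The proof combines `Pool/Agent/N760/IT` (helper760) and `Pool/Agent/N733/TG` (helper733) with the starting theorem `saving` of
`Pool/Agent/N835/FT/Count.lean` (helper835).
-/

set_option autoImplicit false

namespace Pool.Agent.Results.MP_e43fce_nt.TotientOrbits

open Finset Filter Topology
open Pool.Agent.N733.TG (LM Expanding lm_totient lm_sigma keep_good_nat expanding_pow)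
open Pool.Agent.N760.IT (orb lm_id orbit_good_nat)
open Pool.Agent.N826.IT.Orb (AlmostAll almostAll_mono)

/-- the Collatz function -/
def C (n : ℕ) : ℕ := if n % 2 = 0 then n / 2 else 3 * n + 1

/-- `l(n) ≤ t`: one of the iterates `C^(k)(n)` with `k ≤ t` is `1` -/
def StopsBy (t : ℝ) (n : ℕ) : Prop := ∃ k : ℕ, (k : ℝ) ≤ t ∧ C^[k] n = 1

/-- Within `2 (log₂ (2 n))²` steps the trajectory of `n` falls below `n ^ β`. -/
def Falls (β : ℝ) (n : ℕ) : Prop :=
  ∃ j : ℕ, (j : ℝ) ≤ 2 * Real.logb 2 (2 * n) ^ 2 ∧ ((C^[j] n : ℕ) : ℝ) < (n : ℝ) ^ β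

/-- the entropy `H = 0.9499...` -/
noncomputable def H : ℝ := Real.binEntropy (Real.log 2 / Real.log 3) / Real.log 2

lemma cnt {β : ℝ} (h0 : 0 < β) (h1 : β ≤ 1) : ∀ ε : ℝ, 0 < ε → ∃ C : ℝ, ∀ X : ℕ, 1 ≤ X →
    ({t : ℕ | 1 ≤ t ∧ t ≤ X ∧ (fun _ : ℕ => True) t ∧ ¬ Falls β t}.ncard : ℝ) ≤
      C * (X : ℝ) ^ ((1 - (1 - H) * β) + ε) := by
  intro ε hε
  obtain ⟨K, hK⟩ := Pool.Agent.N835.FT.saving h0 h1 ε hε
  refine ⟨K, fun X hX => le_trans (le_of_eq ?_) (hK X hX)⟩
  congr 2
  ext t
  exact ⟨fun h => ⟨h.1, h.2.1, h.2.2.2⟩, fun h => ⟨h.1, h.2.1, trivial, h.2.2⟩⟩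

/-- **Theorem.** (0) `0.049 < 1 - H`. (1) Let `0 < β ≤ 1`, let `f` be multiplicative and positive, of at most polynomial growth,
with `f p ≤ M p` at the large primes, and injective there (`LM`). Let `G` have steps `≥ a > 0` and growth at most `v^d`. Let
`κ ≥ 0` and `d (1 - (1 - H) β) + κ < 1`. There is `K : ℕ → ℕ` tending to infinity such that for almost all `m`, for all
`k ≤ K(m)`, with `v = f(φ_k(m))` (`orb f k m`), EVERY `n ≥ 1` with `|n - G v| ≤ v^κ` is falling: some iterate `C^(j)(n)` with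
`j ≤ 2 (log₂ (2 n))²` is less than `n ^ β`. For every `U` and all large `N` this holds for `v = f(m)`, for all `m ≤ N` but
`N / (log N)^U`. (2) If `A β < 1`, then a large falling `n` with `l(n) > n` requires some `m < n ^ β` with `l(m) > K m ^ A`.
(3) The identity, Euler's function and the sum of the divisors are examples of such functions `f`, and `α v^d` with `α > 0`,
`d ≥ 1` is an example of `G`. -/
theorem result : 0.049 < 1 - H ∧
    (∀ β : ℝ, 0 < β → β ≤ 1 → ∀ f : ℕ → ℕ, LM f → ∀ (G : ℕ → ℝ) (d : ℝ), Expanding G d →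
      ∀ κ : ℝ, 0 ≤ κ → d * (1 - (1 - H) * β) + κ < 1 →
      (∃ K : ℕ → ℕ, Tendsto K atTop atTop ∧
        AlmostAll (fun m => ∀ k ≤ K m, ∀ n : ℕ, 1 ≤ n → |(n : ℝ) - G (orb f k m)| ≤ (orb f k m : ℝ) ^ κ →
          Falls β n)) ∧
      ∀ U : ℕ, ∃ N₀ : ℕ, ∀ N : ℕ, N₀ ≤ N →
        ({m : ℕ | 1 ≤ m ∧ m ≤ N ∧ ¬ ∀ n : ℕ, 1 ≤ n → |(n : ℝ) - G (f m)| ≤ (f m : ℝ) ^ κ →
          Falls β n}.ncard : ℝ) ≤ N / Real.log N ^ U) ∧
    (∀ A β K : ℝ, 0 ≤ A → 0 ≤ K → A * β < 1 → ∃ N : ℕ, ∀ n : ℕ, N ≤ n → Falls β n → ¬ StopsBy n n →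
      ∃ m : ℕ, 1 ≤ m ∧ (m : ℝ) < (n : ℝ) ^ β ∧ ¬ StopsBy (K * (m : ℝ) ^ A) m) ∧
    (LM (fun m => m) ∧ LM Nat.totient ∧ LM (fun m => ∑ d ∈ m.divisors, d)) ∧
    ∀ α d : ℝ, 0 < α → 1 ≤ d → Expanding (fun v => α * (v : ℝ) ^ d) d := by
  have hb1 : H < 0.951 := Pool.Agent.H319R2.beta_lt
  have hb0 : 0 ≤ H := Pool.Agent.N835.FT.beta_nonneg
  refine ⟨by linarith, fun β h0 h1 f hf G d hG κ hκ h2 => ⟨?_, fun U => ?_⟩,
    CarmichaelMultiples.result.2.2.1, ⟨lm_id, lm_totient, lm_sigma⟩, fun a d ha hd => expanding_pow ha hd⟩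
  · have hs : 0 ≤ 1 - (1 - H) * β := by nlinarith
    obtain ⟨K, hK, hK2⟩ := orbit_good_nat (fun _ => True) (Falls β) hf hG hs hκ h2 (cnt h0 h1)
    exact ⟨K, hK, almostAll_mono hK2 (fun m hm k hk n hn hw => hm k hk n hn trivial hw)⟩
  · have hs : 0 ≤ 1 - (1 - H) * β := by nlinarith
    obtain ⟨N₀, hN₀⟩ := keep_good_nat (fun _ => True) (Falls β) hf hG hs hκ h2 (cnt h0 h1) U
    refine ⟨N₀, fun N hN => le_trans (le_of_eq ?_) (hN₀ N hN)⟩
    congr 2
    ext m
    simp only [Set.mem_ofPred_eq, true_implies]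

end Pool.Agent.Results.MP_e43fce_nt.TotientOrbits
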